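import Pool.Agent.Lib.MP_688fd0_co.SQ4.IfaceV2

/-!
The bounds of WORLD, type C1.
-/

set_option autoImplicit false

namespace Pool.Agent.Lib.MP_688fd0_co.SQ4.CV

open Pool.Agent.Lib.MP_688fd0_co.SQ4

theorem num_key (σ ρ k c L : ℕ) (hk : k ≤ L) (hσ : σ + 1 ≤ L) (hρ : ρ + 2 ≤ L) (hL : 20 ≤ L) :
    lamV σ (rT σ ρ k) k (hB σ k (c + 2)) ≤ 2 ^ (19 + L * (16 + L)) * (c + 1) := by
  have hk1 : k + 1 ≤ 2 * L := by omega
  have h1 : rB ρ k ≤ 2 ^ 8 * L ^ 8 := by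
    unfold rB
    calc (ρ + k + 2) ^ 8 ≤ (2 * L) ^ 8 := Nat.pow_le_pow_left (by omega) 8
      _ = 2 ^ 8 * L ^ 8 := by rw [mul_pow]
  have hp : ∀ m n : ℕ, m ≤ n → L ^ m ≤ L ^ n := fun m n h => Nat.pow_le_pow_right (by omega) h
  have h2 : rT σ ρ k ≤ 2 ^ 9 * L ^ 11 := by
    unfold rT
    calc 2 * (σ + 1) ^ 2 * (ρ + 1) * rB ρ k ≤ 2 * L ^ 2 * L * (2 ^ 8 * L ^ 8) := by
          refine Nat.mul_le_mul (Nat.mul_le_mul (Nat.mul_le_mul_left 2 (Nat.pow_le_pow_left hσ 2)) (by omega)) h1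
      _ = 2 ^ 9 * L ^ 11 := by ring
  have h3 : rT σ ρ k + 1 ≤ 2 ^ 10 * L ^ 11 := by
    have : 1 ≤ L ^ 11 := Nat.one_le_pow _ _ (by omega)
    omega
  have h4 : (σ + 1) ^ σ ≤ L ^ L := (Nat.pow_le_pow_left hσ σ).trans (hp _ _ (by omega))
  have h5 : (rT σ ρ k + 1) * (σ + 1) ^ σ + 1 ≤ 2 ^ 11 * L ^ (11 + L) := by
    have h6 : (rT σ ρ k + 1) * (σ + 1) ^ σ ≤ 2 ^ 10 * L ^ 11 * L ^ L := Nat.mul_le_mul h3 h4
    have h7 : 2 ^ 10 * L ^ 11 * L ^ L = 2 ^ 10 * L ^ (11 + L) := by rw [mul_assoc, ← pow_add]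
    have h8 : 1 ≤ L ^ (11 + L) := Nat.one_le_pow _ _ (by omega)
    omega
  have h9 : 2 * k + hB σ k (c + 2) ≤ 42 * L ^ 5 * (c + 1) := by
    unfold hB
    have e1 : 4 * k * (σ + 1) ^ 2 ≤ 4 * L ^ 5 := by
      calc 4 * k * (σ + 1) ^ 2 ≤ 4 * L * L ^ 2 := Nat.mul_le_mul (by omega) (Nat.pow_le_pow_left hσ 2)
        _ = 4 * L ^ 3 := by ring
        _ ≤ 4 * L ^ 5 := Nat.mul_le_mul_left 4 (hp 3 5 (by omega))
    have hk2 : k + 1 ≤ L + 1 := by omega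
    have e2 : 20 * (k + 1) ^ 5 ≤ 26 * L ^ 5 := by
      have hq : 20 * (k + 1) ≤ 21 * L := by omega
      have h20 : 20 ^ 5 * (20 * (k + 1) ^ 5) ≤ 20 ^ 5 * (26 * L ^ 5) := by
        calc 20 ^ 5 * (20 * (k + 1) ^ 5) = 20 * (20 * (k + 1)) ^ 5 := by ring
          _ ≤ 20 * (21 * L) ^ 5 := Nat.mul_le_mul_left _ (Nat.pow_le_pow_left hq 5)
          _ = (20 * 21 ^ 5) * L ^ 5 := by ring
          _ ≤ (20 ^ 5 * 26) * L ^ 5 := Nat.mul_le_mul_right _ (by norm_num)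
          _ = 20 ^ 5 * (26 * L ^ 5) := by ring
      exact Nat.le_of_mul_le_mul_left h20 (by norm_num)
    have e3 : 1 ≤ L ^ 5 := Nat.one_le_pow _ _ (by omega)
    have e4 : L ≤ L ^ 5 := by
      calc L = L ^ 1 := (pow_one L).symm
        _ ≤ L ^ 5 := hp 1 5 (by omega)
    have e5 : 8 * (c + 2) ≤ L * (c + 1) := by
      calc 8 * (c + 2) ≤ 16 * (c + 1) := by omega
        _ ≤ L * (c + 1) := Nat.mul_le_mul_right _ (by omega)
    have e6 : L * (c + 1) ≤ L ^ 5 * (c + 1) := Nat.mul_le_mul_right _ e4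
    have e7 : L ^ 5 ≤ L ^ 5 * (c + 1) := Nat.le_mul_of_pos_right _ (by omega)
    calc 2 * k + (4 * k * (σ + 1) ^ 2 + 20 * (k + 1) ^ 5 + 8 * (c + 2))
        ≤ 2 * L ^ 5 + (4 * L ^ 5 + 26 * L ^ 5 + L ^ 5 * (c + 1)) := by omega
      _ ≤ 42 * (L ^ 5 * (c + 1)) := by omega
      _ = 42 * L ^ 5 * (c + 1) := by ring
  unfold lamV
  have h10 : 6 * ((rT σ ρ k + 1) * (σ + 1) ^ σ + 1) * (2 * k + hB σ k (c + 2)) ≤
      6 * (2 ^ 11 * L ^ (11 + L)) * (42 * L ^ 5 * (c + 1)) :=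
    Nat.mul_le_mul (Nat.mul_le_mul_left 6 h5) h9
  have h11 : 6 * (2 ^ 11 * L ^ (11 + L)) * (42 * L ^ 5 * (c + 1)) = 516096 * (L ^ (16 + L) * (c + 1)) := by
    have : L ^ (16 + L) = L ^ (11 + L) * L ^ 5 := by rw [← pow_add]; congr 1; omega
    rw [this]; ring
  have h12 : 2 * k * k ≤ 2 * (L ^ (16 + L) * (c + 1)) := by
    calc 2 * k * k ≤ 2 * (L * L) := by rw [mul_assoc]; exact Nat.mul_le_mul_left 2 (Nat.mul_le_mul hk hk)
      _ = 2 * L ^ 2 := by ring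
      _ ≤ 2 * L ^ (16 + L) := Nat.mul_le_mul_left 2 (hp _ _ (by omega))
      _ ≤ 2 * (L ^ (16 + L) * (c + 1)) := Nat.mul_le_mul_left 2 (Nat.le_mul_of_pos_right _ (by omega))
  have h13 : L ^ (16 + L) ≤ 2 ^ (L * (16 + L)) := by
    rw [pow_mul]
    exact Nat.pow_le_pow_left (Nat.lt_two_pow_self).le _
  calc 6 * ((rT σ ρ k + 1) * (σ + 1) ^ σ + 1) * (2 * k + hB σ k (c + 2)) + 2 * k * k
      ≤ 516096 * (L ^ (16 + L) * (c + 1)) + 2 * (L ^ (16 + L) * (c + 1)) := Nat.add_le_add (h10.trans h11.le) h12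
    _ = 516098 * (L ^ (16 + L) * (c + 1)) := by ring
    _ ≤ 2 ^ 19 * (2 ^ (L * (16 + L)) * (c + 1)) :=
        Nat.mul_le_mul (by norm_num) (Nat.mul_le_mul_right _ h13)
    _ = 2 ^ (19 + L * (16 + L)) * (c + 1) := by rw [pow_add]; ring

/-- NUM. -/
theorem numV : NumVS := by
  intro σ ρ k c hk hσ
  set M := (ρ + 2) ^ 4 * k with hM
  have h1 : ρ + 2 ≤ M := by
    calc ρ + 2 = (ρ + 2) ^ 1 * 1 := by ring
      _ ≤ (ρ + 2) ^ 4 * k := Nat.mul_le_mul (Nat.pow_le_pow_right (by omega) (by omega)) hk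
  set L := M + k + 20 with hL
  have h20 : 20 ≤ L := by omega
  have key := num_key σ ρ k c L (by omega) (by omega) (by omega) h20
  have h2 : 19 + L * (16 + L) ≤ L ^ 4 := by
    have e1 : L ^ 4 = L * L * (L * L) := by ring
    have e2 : 400 ≤ L * L := Nat.mul_le_mul h20 h20
    have e3 : 400 * (L * L) ≤ L * L * (L * L) := Nat.mul_le_mul_right _ e2
    have e4 : 20 * L ≤ L * L := Nat.mul_le_mul_right _ h20
    have e5 : L * (16 + L) = 16 * L + L * L := by ring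
    omega
  have h3 : lamC M k c = 2 ^ (L ^ 4) * (c + 1) := rfl
  constructor
  · rw [h3]
    exact key.trans (Nat.mul_le_mul_right _ (Nat.pow_le_pow_right (by omega) h2))
  · rw [h3]
    have e1 : 100 * (k + 1) ≤ 2 ^ (L ^ 4) := by
      have e2 : 100 * (k + 1) ≤ L ^ 4 := by
        have e3 : k + 1 ≤ L := by omega
        have e4 : L ^ 4 = L * L * (L * L) := by ring
        have e5 : 400 ≤ L * L := Nat.mul_le_mul h20 h20
        have e6 : 400 * (L * L) ≤ L * L * (L * L) := Nat.mul_le_mul_right _ e5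
        have e7 : L ≤ L * L := Nat.le_mul_of_pos_right _ (by omega)
        omega
      exact e2.trans (Nat.lt_two_pow_self).le
    calc 100 * (c + k + 1) ≤ 100 * (k + 1) * (c + 1) := by nlinarith
      _ ≤ 2 ^ (L ^ 4) * (c + 1) := Nat.mul_le_mul_right _ e1

end Pool.Agent.Lib.MP_688fd0_co.SQ4.CV
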