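import Pool.Agent.Lib.MP_688fd0_co.SQ4.IfaceV2

/-!
WORLD of type C1 from the rows of `IfaceV2` (assembly).
-/

set_option autoImplicit false

namespace Pool.Agent.Lib.MP_688fd0_co.SQ4.CV

open Pool.Agent.Lib.MP_688fd0_co.OSF Pool.Agent.Lib.MP_688fd0_co.SQ2 Pool.Agent.Lib.MP_688fd0_co.SQ3
open Pool.Agent.Lib.MP_688fd0_co.SQ4

section mono

variable {S : Type} [Fintype S] [DecidableEq S] {Q : Type} [Group Q] [DecidableEq Q] {B : Lb.{0, 0} Q} {a b : B.L}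
  {eps : Q →* ℤˣ} {D : Subgroup Q} {z : Q} {k : ℕ}

theorem FamB.mono {H : HypC B a b eps D z k} {g : S → Q} {inj : Function.Injective g} {R : Type} [Fintype R]
    {X : ClsW H.up g inj (2 * k) R} {Y : S → Prop} {wd : R → List B.L} {In : R → Prop} {h h' : ℕ}
    (hX : FamB H g inj X Y wd In h) (hh : h ≤ h') : FamB H g inj X Y wd In h' :=
  { hX with hle := fun r => (hX.hle r).trans hh }

theorem FamX.mono {H : HypC B a b eps D z k} {g : S → Q} {inj : Function.Injective g} {R : Type} [Fintype R]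
    {X : ClsW H.up g inj (2 * k) R} {s : B.L} {n : ℤ} {M : Set Q} {Y₀ Y₁ : S → Prop} {wd : R → List B.L}
    {In : R → Prop} {h h' : ℕ} (hX : FamX H g inj X s n M Y₀ Y₁ wd In h) (hh : h ≤ h') :
    FamX H g inj X s n M Y₀ Y₁ wd In h' :=
  { hX with hle := fun r => (hX.hle r).trans hh }

theorem Pth.Ok.mono {H : HypC B a b eps D z k} {F : Finset Q} {T : Pth H F} {x s₁ s₂ : Q} {r h r' h' : ℕ}
    (hT : T.Ok x s₁ s₂ r h) (hr : r ≤ r') (hh : h ≤ h') : T.Ok x s₁ s₂ r' h' :=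
  { hT with
    fam := fun c => (hT.fam c).mono hh
    card := hT.card.trans hr }

theorem lamV_mono {σ σ' r r' k h h' : ℕ} (hσ : σ ≤ σ') (hr : r ≤ r') (hh : h ≤ h') : lamV σ r k h ≤ lamV σ' r' k h' := by
  unfold lamV
  have h1 : (σ + 1) ^ σ ≤ (σ' + 1) ^ σ' :=
    (Nat.pow_le_pow_left (by omega) _).trans (Nat.pow_le_pow_right (by omega) hσ)
  have h2 : (r + 1) * (σ + 1) ^ σ + 1 ≤ (r' + 1) * (σ' + 1) ^ σ' + 1 :=
    Nat.add_le_add_right (Nat.mul_le_mul (by omega) h1) 1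
  have h3 : 6 * ((r + 1) * (σ + 1) ^ σ + 1) * (2 * k + h) ≤ 6 * ((r' + 1) * (σ' + 1) ^ σ' + 1) * (2 * k + h') :=
    Nat.mul_le_mul (Nat.mul_le_mul_left 6 h2) (by omega)
  exact Nat.add_le_add_right h3 _

theorem rT_mono {σ σ' ρ k : ℕ} (hσ : σ ≤ σ') : rT σ ρ k ≤ rT σ' ρ k := by
  unfold rT
  refine Nat.mul_le_mul_right _ (Nat.mul_le_mul_right _ (Nat.mul_le_mul_left _ ?_))
  exact Nat.pow_le_pow_left (by omega) 2

theorem hB_mono {σ σ' k N : ℕ} (hσ : σ ≤ σ') : hB σ k N ≤ hB σ' k N := by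
  unfold hB
  have h1 : (σ + 1) ^ 2 ≤ (σ' + 1) ^ 2 := Nat.pow_le_pow_left (by omega) 2
  have h2 : 4 * k * (σ + 1) ^ 2 ≤ 4 * k * (σ' + 1) ^ 2 := Nat.mul_le_mul_left _ h1
  omega

end mono

section ctx

variable {Q : Type} [Group Q] [DecidableEq Q] {B : Lb.{0, 0} Q} {a b : B.L}
  {eps : Q →* ℤˣ} {D : Subgroup Q} {z : Q} {k : ℕ} {H : HypC B a b eps D z k} {c W : ℕ} {d cl : Q → Bool} {N : ℕ}
  {x s₁ s₂ : Fin N → Q} {F : Fin N → Finset Q} {rk : Fin N → ℕ}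

omit [DecidableEq Q] in
theorem line_pow {α : Type} {U : Up B} {f : Q → α} (hf : ∀ y, f (U.U y) = f y) (n : ℕ) (y : Q) :
    f ((U.U ^ n) y) = f y := by
  induction n with
  | zero => rfl
  | succ n ih => rw [pow_succ', Equiv.Perm.mul_apply, hf, ih]

theorem CtxV.wl (C : CtxV H c W d cl x s₁ s₂ F rk) (γ : Bool) (R : Type) [CommRing R] (F' : Finset Q) (e : ℕ) :
    LW H.up F' e (wcl cl d γ : Q → R) := by
  intro s _ t _
  unfold wcl
  rw [line_pow C.d_line, line_pow C.c_line]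

omit [Group Q] [DecidableEq Q] in
theorem wcl_add {R : Type} [CommRing R] {y y' : Q} (h : cl y = false) (h' : cl y' = false) (hd : d y' = !d y)
    (γ : Bool) : (wcl cl d γ : Q → R) y + wcl cl d γ y' = 0 := by
  unfold wcl
  rw [h, h', hd]
  cases γ
  · cases d y <;> simp
  · simp

theorem CtxV.dis (C : CtxV H c W d cl x s₁ s₂ F rk) (i : Fin N) :
    Dis H (fun v : {v // v ∈ F i} => (v : Q)) W := by
  intro v v' t ht h
  refine (C.fr i).disj v v.2 t ht ?_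
  rw [h]
  exact v'.2

theorem CtxV.dis1 (C : CtxV H c W d cl x s₁ s₂ F rk) (i : Fin N) (hW : 1 ≤ W) :
    Dis H (fun v : {v // v ∈ F i} => (v : Q)) 1 := by
  intro v v' t ht h
  exact C.dis i v v' t (ht.trans (by exact_mod_cast hW)) h

theorem CtxV.dcl (C : CtxV H c W d cl x s₁ s₂ F rk) (i : Fin N) :
    DCl D (fun v : {v // v ∈ F i} => (v : Q)) :=
  fun v δ hδ => ⟨⟨(v : Q) * δ, (C.fr i).inv v v.2 δ hδ⟩, rfl⟩

end ctx

section comp

variable {Q : Type} [Group Q] [DecidableEq Q] {B : Lb.{0, 0} Q} {a b : B.L}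
  {eps : Q →* ℤˣ} {D : Subgroup Q} {z : Q} {k : ℕ} {H : HypC B a b eps D z k} {F : Finset Q} {T : Pth H F}

/-- The component is closed. -/
theorem comp_iff {c : T.C} {v₀ : {v // v ∈ F}} {A : {v // v ∈ F} → Prop} (hA : T.IsComp (fun c' => c' = c) v₀ A)
    (r : T.Rc c) : A ((T.X c).x r) ↔ A ((T.X c).y r) := by
  rw [hA, hA]
  constructor
  · intro h
    exact h.tail ⟨c, rfl, r, Or.inl ⟨rfl, rfl⟩⟩
  · intro h
    exact h.tail ⟨c, rfl, r, Or.inr ⟨rfl, rfl⟩⟩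

end comp

theorem wStb_eq {Q R : Type} [DecidableEq Q] [CommRing R] {x s₁ s₂ : Q} {w : Q → R} (h₁ : w x + w s₁ = 0)
    (h₂ : w x + w s₂ = 0) : wStb x s₁ s₂ w = w := by
  funext v
  unfold wStb
  split_ifs with h h'
  · rw [h]; linear_combination -h₂
  · rw [h']; linear_combination h₂ - h₁
  · rfl

/-- The data of all paths. -/
theorem worldOf (hCtx : CtxVS) (hBX : BigXS) (hBI : BigIS) (hCX : CompXS) (hRX : RetXS) (hWin : WinS)
    (hFA : FlipAS) (hFB : FlipBS) (hSt : StkS) (hPX : PlXS) (hPI : PlIS) (hPK : PlKS) (hGa : GaugeS) (hCN : CaseNS)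
    (hAl : AlgS) (hNum : NumVS) : WorldCS := by
  intro Q _ _ _ B a b eps D z k H h3 c W hSi hSe hLe hW
  obtain ⟨d, cl, N, x, s₁, s₂, F, rk, C⟩ := hCtx Q B a b eps D z k H c W h3 hSi hSe hLe hW
  set M := (Nat.card B.L + 2) ^ 4 * k with hM
  generalize hΛ : lamC M k c = Λ at *
  obtain ⟨hn1, hn2⟩ := hNum M (Nat.card B.L) k c H.kpos le_rfl
  rw [← hM, hΛ] at hn1 hn2
  set r := rT M (Nat.card B.L) k with hr
  set h := hB M k (c + 2) with hh
  have hW1 : 1 ≤ W := by omega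
  have hFc : ∀ i, (F i).card ≤ M := fun i => (C.fr i).fcard
  have hl1 : ∀ i, s₁ i ≠ x i := fun i e => C.tree.cl i (by rw [e])
  have hl2 : ∀ i, s₂ i ≠ x i := fun i e => C.tree.cm i (by rw [e])
  have hl3 : ∀ i, s₁ i ≠ s₂ i := fun i e => C.tree.lm i (by rw [e])
  have hlV : ∀ i, lamV (F i).card r k h ≤ Λ := fun i => (lamV_mono (hFc i) le_rfl le_rfl).trans hn1
  -- the common part
  have key : ∀ (T : ∀ i, Pth H (F i)), (∀ i, (T i).Ok (x i) (s₁ i) (s₂ i) r h) →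
      (∀ (p : ℕ) (_ : Fact p.Prime) (V : Vd B (ZMod p)), 4 * k < p → V.chi z = 1 → ∀ γ : Bool, (∃ y, cl y = γ) →
        (∀ i, Cx (T i) (x i) (s₁ i) (s₂ i) r h W Λ V (wcl cl d γ : Q → ZMod p)) → GoodL a b D V →
        ((V.chi (wC B a b) = 1 → nuW V a b ≠ 0 →
          (∀ s, EffL B a b eps D z k s → AtX H s fun _ _ g x y _ A => ChiOn V a eps g x y A) ∧
          ((∀ s, ¬ EffL B a b eps D z k s) → AtI H fun _ _ g x y _ A => ChiOn V a eps g x y A)) ∧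
        ∀ u u' o : ZMod p, (∀ x, (evA V eps u u').e x (H.up.up x) = o) →
          (∀ s, EffL B a b eps D z k s → AtX H s fun _ _ g x y wd A => PotOn V a eps u u' g x y wd A) ∧
          ((∀ s, ¬ EffL B a b eps D z k s) → AtI H fun _ _ g x y wd A => PotOn V a eps u u' g x y wd A))) →
      ∃ (d cl : Q → Bool) (N : ℕ) (x s₁ s₂ : Fin N → Q) (F : Fin N → Finset Q) (t₀ rk : Fin N → ℕ),
        World H.up (2 * k) W M ((Nat.card B.L + 2) ^ 20 * k ^ 8) Λ d cl x s₁ s₂ F t₀ rk ∧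
        ∀ (p : ℕ) (_ : Fact p.Prime) (V : Vd B (ZMod p)), 4 * k < p → V.chi z = 1 → KapV V a b eps →
          ∀ γ : Bool, (∃ y, cl y = γ) → FlipAt H.up (2 * k) Λ d cl x s₁ s₂ F t₀ V γ := by
    intro T hT hfl
    have hwin := fun i => hWin Q B a b eps D z k H (F i) (T i) (x i) (s₁ i) (s₂ i) r h W Λ (hT i) (C.fr i).inv
      (C.dis i) (hlV i) hW
    refine ⟨d, cl, N, x, s₁, s₂, F, fun i => (T i).t₀, rk, ⟨C.pos, C.d_line, C.c_line, C.d₁, C.d₂, C.tree,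
      fun i => (C.fr i).disj, fun i => (C.fr i).fx, C.f₁, C.f₂, hFc, C.near, fun i => ?_, fun i => (hwin i).2⟩, ?_⟩
    · have := (hwin i).1
      show (T i).t₀ ≤ Λ
      omega
    intro p hp V hkp hz hK γ hγ
    by_contra hcon
    have hnofl : ∀ i, NoFl H (F i) (T i).t₀ (x i) (s₁ i) (s₂ i) Λ V (wcl cl d γ : Q → ZMod p) := by
      intro i X X' n hn hX hver
      by_contra hne
      exact hcon ⟨i, X, X', n, hn, hX, hver, hne⟩
    have hCx : ∀ i, Cx (T i) (x i) (s₁ i) (s₂ i) r h W Λ V (wcl cl d γ : Q → ZMod p) := fun i =>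
      ⟨hT i, (C.fr i).inv, C.dis i, hlV i, hW, hp.out, hkp, hz, C.wl γ _ _ _, wcl_add (C.c₀ i) (C.c₁ i) (C.d₁ i) γ,
        hnofl i⟩
    have hGL : GoodL a b D V := by
      intro q hq hchi
      by_contra hne
      obtain ⟨i, v₁, hv₁, hs⟩ := hPK Q B a b eps D z k H c W hSi hSe hLe (by rw [← hM, hΛ]; exact hW) d cl N x s₁ s₂ F rk
        C γ hγ p hp hkp q hq
      have h0 := hSt Q B a b eps D z k H (F i) (T i) (x i) (s₁ i) (s₂ i) r h W Λ p hp V _ (hCx i) q hq hchi hne v₁ hv₁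
      rw [wStb_eq (wcl_add (C.c₀ i) (C.c₁ i) (C.d₁ i) γ) (wcl_add (C.c₀ i) (C.c₂ i) (C.d₂ i) γ)] at h0
      exact hs h0
    obtain ⟨hf1, hf2⟩ := hfl p hp V hkp hz γ hγ hCx hGL
    obtain ⟨u, u', o, ho⟩ := hGa Q B a b eps D z k H p hp V hkp hz fun hw hν =>
      hCN Q B a b eps D z k H p hp V hz hw (hf1 hw hν).1 (hf1 hw hν).2
    exact hAl Q B a b eps D z k H p hp V hkp hz hGL u u' o ho (hf2 u u' o ho).1 (hf2 u u' o ho).2 hK
  by_cases hE : ∃ s, EffL B a b eps D z k s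
  · choose T hT1 hT2 hT3 using fun i => hBX Q B a b eps D z k H c W hSi hSe hLe (by rw [← hM, hΛ]; exact hW) hE (x i)
      (s₁ i) (s₂ i) (F i) (C.ex i) (C.fr i) (C.f₁ i) (C.f₂ i) (hl1 i) (hl2 i) (hl3 i) (C.e₁ i) (C.e₂ i)
    have hTr : ∀ i, rT (F i).card (Nat.card B.L) k ≤ r := fun i => rT_mono (hFc i)
    have hTh : ∀ i, hB (F i).card k (c + 2) ≤ h := fun i => hB_mono (hFc i)
    have hOk : ∀ i, (T i).Ok (x i) (s₁ i) (s₂ i) r h := fun i => (hT1 i).mono (hTr i) (hTh i)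
    have hFull : ∀ i, (T i).FullM (c + 2) h := by
      intro i v y s n hn hs hj
      obtain ⟨c', hc'⟩ := hT2 i v y s n hn hs hj
      exact ⟨c', hc'.mono (hTh i)⟩
    have hRet : ∀ i, (T i).P.RetK fun _ => True := by
      intro i
      refine hRX Q B a b eps D z k H (F i) (T i) fun c' => ?_
      obtain ⟨s, n, v, y, hc'⟩ := hT3 i c'
      exact ⟨s, n, _, v, y, _, hc'⟩
    refine key T hOk ?_
    intro p hp V hkp hz γ hγ hCx hGL
    have hall : ∀ s, EffL B a b eps D z k s → ∃ (i : Fin N) (c' : (T i).C) (n : ℤ) (v y v₀ : {v // v ∈ F i})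
        (A : {v // v ∈ F i} → Prop), FamX H _ _ ((T i).X c') s n (MsC B a b D z k s)
          (fun u => Sh D (v : Q) (u : Q)) (fun u => Sh D (y : Q) (u : Q)) ((T i).wd c') ((T i).In c') h ∧
          (Sh D (v : Q) (v₀ : Q) ∨ Sh D (y : Q) (v₀ : Q)) ∧ (T i).IsComp (fun c'' => c'' = c') v₀ A ∧
          (T i).StrtC c' A (fun _ => True) (wcl cl d γ : Q → ZMod p) := fun s hs =>
      hPX Q B a b eps D z k H c W hSi hSe hLe (by rw [← hM, hΛ]; exact hW) d cl N x s₁ s₂ F rk C T r h hOk hRet hFull γ hγ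
        p hp hkp s hs
    refine ⟨fun hw hν => ⟨fun s hs => ?_, fun hE' => absurd hE (fun ⟨s, hs⟩ => hE' s hs)⟩,
      fun u u' o ho => ⟨fun s hs => ?_, fun hE' => absurd hE (fun ⟨s, hs⟩ => hE' s hs)⟩⟩
    · obtain ⟨i, c', n, v, y, v₀, A, hX, hv₀, hA, hS⟩ := hall s hs
      have hG := hCX Q B a b eps D z k H (F i) (T i) (C.fr i).inv c' s n _ v y h hX v₀ A hA hv₀ p hp hkp
      have hc := hFB Q B a b eps D z k H (F i) (T i) (x i) (s₁ i) (s₂ i) r h W Λ p hp V _ (hCx i) hw hν c' v₀ A hA _ hG hS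
      exact ⟨_, _, _, _, _, _, _, (T i).X c', n, _, v, y, (T i).wd c', (T i).In c', h, v₀, A, C.dcl i, C.dis1 i hW1, hX,
        hv₀, (hA v₀).2 Relation.ReflTransGen.refl, comp_iff hA, hc⟩
    · obtain ⟨i, c', n, v, y, v₀, A, hX, hv₀, hA, hS⟩ := hall s hs
      have hG := hCX Q B a b eps D z k H (F i) (T i) (C.fr i).inv c' s n _ v y h hX v₀ A hA hv₀ p hp hkp
      have hc := hFA Q B a b eps D z k H (F i) (T i) (x i) (s₁ i) (s₂ i) r h W Λ p hp V _ (hCx i) u u' o ho hGL c' v₀ A hA _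
        hG hS
      exact ⟨_, _, _, _, _, _, _, (T i).X c', n, _, v, y, (T i).wd c', (T i).In c', h, v₀, A, C.dcl i, C.dis1 i hW1, hX,
        hv₀, (hA v₀).2 Relation.ReflTransGen.refl, comp_iff hA, hc⟩
  · have hE' : ∀ s, ¬ EffL B a b eps D z k s := fun s hs => hE ⟨s, hs⟩
    choose hsh T cc hT1 hT2 hT3 hT4 hT5 using fun i => hBI Q B a b eps D z k H c W hSi hSe hLe (by rw [← hM, hΛ]; exact hW)
      hE' (x i) (s₁ i) (s₂ i) (F i) (C.ex i) (C.fr i) (C.fs0 i) (C.f₁ i) (C.f₂ i) (hl1 i) (hl2 i) (hl3 i) (C.e₁ i) (C.e₂ i)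
    have hTr : ∀ i, rT (F i).card (Nat.card B.L) k ≤ r := fun i => rT_mono (hFc i)
    have hTh : ∀ i, hB (F i).card k (c + 2) ≤ h := fun i => hB_mono (hFc i)
    have hOk : ∀ i, (T i).Ok (x i) (s₁ i) (s₂ i) r h := fun i => (hT1 i).mono (hTr i) (hTh i)
    refine key T hOk ?_
    intro p hp V hkp hz γ hγ hCx hGL
    have i : Fin N := ⟨0, C.pos⟩
    obtain ⟨v₀, A, r₀, hA, hr₀, hS⟩ := hPI Q B a b eps D z k H c W hSi hSe hLe (by rw [← hM, hΛ]; exact hW) hE' d cl N x s₁ s₂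
      F rk C i (T i) (cc i) r h (hOk i) (hT2 i) (hT3 i) (hT4 i) (hsh i) γ hγ p hp hkp
    obtain ⟨K, hK, hG⟩ := hT5 i v₀ A hA r₀ hr₀
    have hG' := hG p hp hkp
    refine ⟨fun hw hν => ⟨fun s hs => absurd hs (hE' s), fun _ => ?_⟩,
      fun u u' o ho => ⟨fun s hs => absurd hs (hE' s), fun _ => ?_⟩⟩
    · have hc := hFB Q B a b eps D z k H (F i) (T i) (x i) (s₁ i) (s₂ i) r h W Λ p hp V _ (hCx i) hw hν (cc i) v₀ A hA K
        hG' (hS K hK)
      exact ⟨_, _, _, _, _, _, _, (T i).X (cc i), _, (T i).wd (cc i), (T i).In (cc i), h, v₀, A, C.dcl i, C.dis1 i hW1,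
        (hOk i).fam (cc i), fun u _ => hT3 i u, (hA v₀).2 Relation.ReflTransGen.refl, comp_iff hA, hc⟩
    · have hc := hFA Q B a b eps D z k H (F i) (T i) (x i) (s₁ i) (s₂ i) r h W Λ p hp V _ (hCx i) u u' o ho hGL (cc i) v₀ A
        hA K hG' (hS K hK)
      exact ⟨_, _, _, _, _, _, _, (T i).X (cc i), _, (T i).wd (cc i), (T i).In (cc i), h, v₀, A, C.dcl i, C.dis1 i hW1,
        (hOk i).fam (cc i), fun u _ => hT3 i u, (hA v₀).2 Relation.ReflTransGen.refl, comp_iff hA, hc⟩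

end Pool.Agent.Lib.MP_688fd0_co.SQ4.CV
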