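import Pool.Agent.Lib.MP_688fd0_co.SQ4.H62.World
import Pool.Agent.Lib.MP_688fd0_co.SQ4.H62.Num
import Pool.Agent.Lib.MP_688fd0_co.SQ4.E.FlipR
import Pool.Agent.Lib.MP_688fd0_co.SQ4.E.AlgR
import Pool.Agent.Lib.MP_688fd0_co.SQ4.H58.Rows
import Pool.Agent.Lib.MP_688fd0_co.SQ4.H95.RetX
import Pool.Agent.Lib.MP_688fd0_co.SQ4.H41.CtxV
import Pool.Agent.Lib.MP_688fd0_co.SQ4.H41.BigX
import Pool.Agent.Lib.MP_688fd0_co.SQ4.H41.Asm
import Pool.Agent.Lib.MP_688fd0_co.SQ4.H2.Pos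
import Pool.Agent.Lib.MP_688fd0_co.SQ4.H52.Ndb
import Pool.Agent.Lib.MP_688fd0_co.SQ4.H98.FamF
import Pool.Agent.Lib.MP_688fd0_co.SQ4.H98.Lza
import Pool.Agent.Lib.MP_688fd0_co.SQ4.H22.PlX
import Pool.Agent.Lib.MP_688fd0_co.SQ4.H53.NearT
import Pool.Agent.Lib.MP_688fd0_co.SQ4.H69.CompJ
import Pool.Agent.Lib.MP_688fd0_co.SQ4.H87.Stk
import Pool.Agent.Lib.MP_688fd0_co.SQ4.H66.F12
import Pool.Agent.Lib.MP_688fd0_co.SQ4.H67.BigI
import Pool.Agent.Lib.MP_688fd0_co.SQ4.H80.KPart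
import Pool.Agent.Lib.MP_688fd0_co.SQ4.H84.PlI
import Pool.Agent.Lib.MP_688fd0_co.SQ4.Small.SmallC
import Pool.Agent.Lib.MP_688fd0_co.SQ4.H23.Asm

/-!
Type C1: WORLD, SMALL and the main statement, from all the rows.
-/

set_option autoImplicit false

namespace Pool.Agent.Lib.MP_688fd0_co.SQ4.CV

open Pool.Agent.Lib.MP_688fd0_co.SQ4

theorem fam1All : Fam1S := F12.fam1 fsb (asm inb lza) pos

theorem fam2All : Fam2S := F12.fam2 ndb (asm inb lza) pos

theorem plXAll : PlXS := plX compX countX nearT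

theorem bigIAll : BigIS := bigI_of kPart

/-- WORLD. -/
theorem world : WorldCS :=
  worldOf ctxV (bigX fam1All fam2All retX) bigIAll compX retX winV flipA flipB H87.stk plXAll plI plK gauge
    caseN alg numV

/-- SMALL. -/
theorem smallAll : SmallCS := Small.smallOf fam1All fam2All bigIAll

end Pool.Agent.Lib.MP_688fd0_co.SQ4.CV

namespace Pool.Agent.Lib.MP_688fd0_co.SQ4

/-- The main statement of type C1. -/
theorem mainCAll : MainCS :=
  mainOfC CV.world CV.smallAll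

end Pool.Agent.Lib.MP_688fd0_co.SQ4
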